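import Pool.Agent.Helper57_K9.Stmts
import Pool.Agent.Helper55_KF.Fm4

/-!
# Squad K9, row FMG: the first main theorem (adapted from `Helper55_KF/Fm4.lean`)
-/

open scoped BigOperators Pointwise

noncomputable section

namespace Pool.Agent.PP.K9.H69

open Pool.Agent.Helper51_AWC Pool.Agent.Helper79_WRA Pool.Agent.PP Pool.Agent.PP.KF

attribute [local instance] Ideal.Quotient.field

section group

variable {K : Type} [Group K]

theorem card_conj (g : K) (P : Subgroup K) : Nat.card (conjS g P) = Nat.card P :=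
  (Nat.card_congr (P.equivMapOfInjective (MulAut.conj g).toMonoidHom
    (MulAut.conj g).injective).toEquiv).symm

/-- an `ℓ`-subgroup of `C` is conjugate to a subgroup of a Sylow subgroup -/
theorem conj_le [Finite K] {ℓ : ℕ} [Fact ℓ.Prime] {C V W : Subgroup K} (hV : V ≤ C) (hW : W ≤ C)
    (pV : IsPGroup ℓ V) (hi : ¬ ℓ ∣ V.relIndex C) (pW : IsPGroup ℓ W) :
    ∃ c ∈ C, W ≤ conjS c V := by
  have pV' : IsPGroup ℓ (V.subgroupOf C) := pV.comap_subtype
  have pW' : IsPGroup ℓ (W.subgroupOf C) := pW.comap_subtype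
  obtain ⟨T, hT⟩ := pW'.exists_le_sylow
  let S : Sylow ℓ C := pV'.toSylow hi
  obtain ⟨c, hc⟩ := MulAction.exists_smul_eq C S T
  refine ⟨c, c.2, fun x hx => ?_⟩
  have h2 : ((c • S : Sylow ℓ C) : Subgroup C) = MulAut.conj c • (V.subgroupOf C) := rfl
  have h3 : (⟨x, hW hx⟩ : C) ∈ (T : Subgroup C) := hT hx
  rw [← hc, h2, Subgroup.mem_pointwise_smul_iff_inv_smul_mem] at h3
  have h4 : ((MulAut.conj c)⁻¹ • (⟨x, hW hx⟩ : C) : C) = c⁻¹ * ⟨x, hW hx⟩ * c := by
    rw [← map_inv]
    change c⁻¹ * _ * c⁻¹⁻¹ = _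
    rw [inv_inv]
  rw [h4] at h3
  rw [mem_conjS]
  exact h3

theorem not_dvd_rel [Finite K] {ℓ n : ℕ} {C V : Subgroup K} (hV : V ≤ C)
    (cV : Nat.card V = ℓ ^ n) (h : ¬ ℓ ^ (n + 1) ∣ Nat.card C) : ¬ ℓ ∣ V.relIndex C := by
  rintro ⟨k, hk⟩
  apply h
  have h1 := Subgroup.card_mul_index (V.subgroupOf C)
  have h2 : Nat.card (V.subgroupOf C) = ℓ ^ n := by
    rw [Nat.card_congr (Subgroup.subgroupOfEquivOfLe hV).toEquiv, cV]
  have h3 : (V.subgroupOf C).index = ℓ * k := hk
  rw [h2, h3] at h1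
  exact ⟨k, by rw [← h1]; ring⟩

/-- normaliser growth -/
theorem pow_of_norm [Finite K] {ℓ n : ℕ} [Fact ℓ.Prime] {V : Subgroup K}
    (cV : Nat.card V = ℓ ^ n)
    {y : Subgroup.normalizer (V : Set K)} (hV : V ≤ Subgroup.centralizer ({(y : K)} : Set K))
    (h8 : ℓ ^ (n + 1) ∣ Nat.card (Subgroup.centralizer ({(y : K)} : Set K))) :
    ℓ ^ (n + 1) ∣
      Nat.card (Subgroup.centralizer ({y} : Set (Subgroup.normalizer (V : Set K)))) := by
  set C := Subgroup.centralizer ({(y : K)} : Set K) with hC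
  have h1 : Nat.card (V.subgroupOf C) = ℓ ^ n := by
    rw [Nat.card_congr (Subgroup.subgroupOfEquivOfLe hV).toEquiv, cV]
  have h2 := Sylow.prime_pow_dvd_card_normalizer (p := ℓ) (n := n) (G := C) h8 h1
  refine h2.trans ?_
  have hn : ∀ t : Subgroup.normalizer ((V.subgroupOf C : Subgroup C) : Set C),
      ((t : C) : K) ∈ Subgroup.normalizer (V : Set K) := by
    intro t
    rw [Subgroup.mem_normalizer_iff]
    intro v
    have h3 := Subgroup.mem_normalizer_iff.1 t.2
    constructor
    · intro hv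
      exact (h3 ⟨v, hV hv⟩).1 hv
    · intro hv
      have h4 : ((t : C) : K)⁻¹ * (((t : C) : K) * v * ((t : C) : K)⁻¹) * ((t : C) : K) = v := by
        group
      have h5 : v ∈ C := by
        rw [← h4]
        exact mul_mem (mul_mem (inv_mem (t : C).2) (hV hv)) (t : C).2
      exact (h3 ⟨v, h5⟩).2 hv
  let φ : Subgroup.normalizer ((V.subgroupOf C : Subgroup C) : Set C) →*
      Subgroup.centralizer ({y} : Set (Subgroup.normalizer (V : Set K))) :=
    { toFun := fun t => ⟨⟨((t : C) : K), hn t⟩, by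
        rw [Subgroup.mem_centralizer_singleton_iff]
        apply Subtype.ext
        exact Subgroup.mem_centralizer_singleton_iff.1 (t : C).2⟩
      map_one' := rfl
      map_mul' := fun _ _ => rfl }
  refine Subgroup.card_dvd_of_injective φ ?_
  intro a b hab
  apply Subtype.ext
  apply Subtype.ext
  exact congrArg (fun z => ((z : Subgroup.centralizer
    ({y} : Set (Subgroup.normalizer (V : Set K)))) : Subgroup.normalizer (V : Set K)).1) hab

/-- if `e y ≠ 0` and the good `ℓ`-subgroups have order at most `ℓ ^ n` -/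
theorem bd [Finite K] {ℓ n : ℕ} [Fact ℓ.Prime] {F : Type} [Field F] {e : K → F}
    (h : ∀ Q : Subgroup K, IsPGroup ℓ Q → Gd e Q → Nat.card Q ≤ ℓ ^ n) {g : K} (hg : e g ≠ 0) :
    ¬ ℓ ^ (n + 1) ∣ Nat.card (Subgroup.centralizer ({g} : Set K)) := by
  intro h8
  set C := Subgroup.centralizer ({g} : Set K) with hC
  obtain ⟨S, hS⟩ := Sylow.exists_subgroup_card_pow_prime (G := C) ℓ (n := n + 1) h8
  have h1 : Nat.card (S.map C.subtype) = ℓ ^ (n + 1) := by
    rw [← Nat.card_congr (S.equivMapOfInjective C.subtype C.subtype_injective).toEquiv, hS]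
  have h2 := h (S.map C.subtype) (IsPGroup.of_card h1) ⟨g, by
      rw [Subgroup.mem_centralizer_iff]
      rintro _ ⟨s, hs, rfl⟩
      exact (Subgroup.mem_centralizer_singleton_iff.1 s.2), hg⟩
  rw [h1] at h2
  have h3 : ℓ ^ n < ℓ ^ (n + 1) := Nat.pow_lt_pow_right (Fact.out : ℓ.Prime).one_lt (Nat.lt_succ_self n)
  omega

theorem cent_le_norm (V : Subgroup K) :
    Subgroup.centralizer (V : Set K) ≤ Subgroup.normalizer (V : Set K) := by
  intro g hg
  rw [Subgroup.mem_normalizer_iff]
  intro v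
  have h1 := Subgroup.mem_centralizer_iff.1 hg
  constructor
  · intro hv
    rw [← h1 v hv, mul_inv_cancel_right]
    exact hv
  · intro hv
    have h2 := h1 _ hv
    have h3 : g * v = g * (g * v * g⁻¹) := by
      rw [← h2]
      group
    rw [mul_left_cancel h3]
    exact hv

end group

section good

variable {F K : Type} [Field F] [Group K] [Finite K]

theorem gd_br {e : K → F} {P : Subgroup K} (h : Gd e P) : br P e ≠ 0 := by
  obtain ⟨g, hg, hg0⟩ := h
  intro h0
  apply hg0
  have := congrFun h0 g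
  rwa [H66.br_of_mem hg] at this

theorem gd_of_br {e : K → F} {P : Subgroup K} (h : br P e ≠ 0) : Gd e P := by
  obtain ⟨z, hz⟩ : ∃ z, br P e z ≠ 0 := by
    by_contra hcon
    push Not at hcon
    exact h (funext hcon)
  have hzP : z ∈ Subgroup.centralizer (P : Set K) := by
    by_contra hcon
    exact hz (H66.br_of_not_mem hcon)
  rw [H66.br_of_mem hzP] at hz
  exact ⟨z, hzP, hz⟩

/-- good subgroups of a factor -/
theorem gd_factor {ℓ : ℕ} (hF : GoodF ℓ F) {f g : K → F} (hf : IsCl f) (hg : IsCl g)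
    (h : mulF f g = g) {P : Subgroup K} (hP : IsPGroup ℓ P) (hgP : Gd g P) : Gd f P := by
  apply gd_of_br
  intro h0
  apply gd_br hgP
  rw [← h, H66.br_mulF hF hP (H66.IsCl.inv hf P) (H66.IsCl.inv hg P), h0]
  apply ma_injective
  rw [ma_mul, ma_zero, zero_mul]

/-- good subgroups of the Brauer map -/
theorem gd_norm {e : K → F} {V : Subgroup K}
    {Q : Subgroup (Subgroup.normalizer (V : Set K))}
    (h : Gd (fun t : Subgroup.normalizer (V : Set K) => br V e t) Q) :
    Gd e (Q.map (Subgroup.normalizer (V : Set K)).subtype) := by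
  obtain ⟨z, hz, hz0⟩ := h
  have hzV : (z : K) ∈ Subgroup.centralizer (V : Set K) := by
    by_contra hcon
    exact hz0 (H66.br_of_not_mem hcon)
  change br V e z ≠ 0 at hz0
  rw [H66.br_of_mem hzV] at hz0
  refine ⟨z, ?_, hz0⟩
  rw [Subgroup.mem_centralizer_iff]
  rintro _ ⟨q, hq, rfl⟩
  exact congrArg Subtype.val (Subgroup.mem_centralizer_iff.1 hz q hq)

theorem card_map (V : Subgroup K) (Q : Subgroup V) : Nat.card (Q.map V.subtype) = Nat.card Q :=
  (Nat.card_congr (Q.equivMapOfInjective V.subtype V.subtype_injective).toEquiv).symm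

end good

section main

variable {M : Ideal (integralClosure ℤ ℂ)} [hM : M.IsMaximal]

/-- the `ℓ`-subgroups on whose centraliser `b` does not vanish -/
theorem below {ℓ : ℕ} {X : Type} [Group X] [Finite X] {F : Type} [Field F] (hF : GoodF ℓ F)
    {b : X → F} (hb : IsCl b)
    {y : X} {u : X → F} (hu : IsCl u)
    (h : mulF (mulF u (clsum F (⊤ : Subgroup X) y)) b = b) {V : Subgroup X}
    (hV : IsPGroup ℓ V) (hg : Gd b V) :
    ∃ r : X, conjS r V ≤ Subgroup.centralizer ({y} : Set X) := by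
  have hk := H50.isCl_clsum (F := F) y
  have h1 : br V b ≠ 0 := gd_br hg
  have h2 : br V (clsum F (⊤ : Subgroup X) y) ≠ 0 := by
    intro h0
    apply h1
    rw [← h, H66.br_mulF hF hV (H66.IsCl.inv (H50.isCl_mulF hu hk) V) (H66.IsCl.inv hb V),
      H66.br_mulF hF hV (H66.IsCl.inv hu V) (H66.IsCl.inv hk V), h0, H46.mulF_zero]
    apply ma_injective
    rw [ma_mul, ma_zero, zero_mul]
  obtain ⟨z, hzV, hz⟩ := gd_of_br h2
  obtain ⟨r, hr⟩ : ∃ r, z = r * y * r⁻¹ := by
    by_contra hcon
    apply hz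
    unfold clsum
    rw [if_neg]
    rintro ⟨q, -, hq⟩
    exact hcon ⟨q, hq⟩
  refine ⟨r⁻¹, fun v hv => ?_⟩
  rw [mem_conjS, inv_inv] at hv
  rw [Subgroup.mem_centralizer_singleton_iff]
  have h4 := Subgroup.mem_centralizer_iff.1 hzV _ hv
  rw [hr] at h4
  have h5 : r * (v * y) * r⁻¹ = r * (y * v) * r⁻¹ := by
    calc r * (v * y) * r⁻¹ = r * v * r⁻¹ * (r * y * r⁻¹) := by group
      _ = r * y * r⁻¹ * (r * v * r⁻¹) := h4
      _ = r * (y * v) * r⁻¹ := by group
  exact mul_left_cancel (mul_right_cancel h5)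

/-- the class sum of `y` in the normaliser of `V` -/
theorem br_clsum {ℓ : ℕ} [Fact ℓ.Prime] {X : Type} [Group X] [Finite X] {F : Type} [Field F]
    {V : Subgroup X} (pV : IsPGroup ℓ V) {y : Subgroup.normalizer (V : Set X)}
    (hy : (y : X) ∈ Subgroup.centralizer (V : Set X))
    (h8 : ¬ ℓ ∣ V.relIndex (Subgroup.centralizer ({(y : X)} : Set X))) :
    (fun t : Subgroup.normalizer (V : Set X) => br V (clsum F (⊤ : Subgroup X) (y : X)) t) =
      clsum F (⊤ : Subgroup (Subgroup.normalizer (V : Set X))) y := by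
  funext t
  have hconj : ∀ n : X, n ∈ Subgroup.normalizer (V : Set X) →
      n * y * n⁻¹ ∈ Subgroup.centralizer (V : Set X) := by
    intro n hn
    rw [Subgroup.mem_centralizer_iff]
    intro v hv
    have h1 : n⁻¹ * v * n ∈ V := by
      have := (Subgroup.mem_normalizer_iff.1 (inv_mem hn) v).1 hv
      rwa [inv_inv] at this
    have h2 := Subgroup.mem_centralizer_iff.1 hy _ h1
    calc v * (n * y * n⁻¹) = n * (n⁻¹ * v * n * y) * n⁻¹ := by group
      _ = n * (y * (n⁻¹ * v * n)) * n⁻¹ := by rw [h2]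
      _ = n * y * n⁻¹ * v := by group
  by_cases ht : (t : X) ∈ Subgroup.centralizer (V : Set X)
  · rw [H66.br_of_mem ht]
    have hiff : (∃ q ∈ (⊤ : Subgroup X), (t : X) = q * y * q⁻¹) ↔
        ∃ q ∈ (⊤ : Subgroup (Subgroup.normalizer (V : Set X))), t = q * y * q⁻¹ := by
      constructor
      · rintro ⟨q, -, hq⟩
        have hV1 : V ≤ Subgroup.centralizer ({(y : X)} : Set X) := by
          intro v hv
          rw [Subgroup.mem_centralizer_singleton_iff]
          exact Subgroup.mem_centralizer_iff.1 hy v hv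
        have hV2 : conjS q⁻¹ V ≤ Subgroup.centralizer ({(y : X)} : Set X) := by
          intro v hv
          rw [mem_conjS, inv_inv] at hv
          rw [Subgroup.mem_centralizer_singleton_iff]
          have h4 := Subgroup.mem_centralizer_iff.1 ht _ hv
          rw [hq] at h4
          have h5 : q * (v * y) * q⁻¹ = q * (y * v) * q⁻¹ := by
            calc q * (v * y) * q⁻¹ = q * v * q⁻¹ * (q * y * q⁻¹) := by group
              _ = q * y * q⁻¹ * (q * v * q⁻¹) := h4
              _ = q * (y * v) * q⁻¹ := by group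
          exact mul_left_cancel (mul_right_cancel h5)
        obtain ⟨c, hc, h6⟩ := conj_le hV1 hV2 pV h8
          (pV.of_equiv ((V.equivMapOfInjective (MulAut.conj q⁻¹).toMonoidHom
            (MulAut.conj q⁻¹).injective)))
        have h6' : conjS q⁻¹ V = conjS c V :=
          Subgroup.eq_of_le_of_card_ge h6 (by rw [card_conj, card_conj])
        have hn : q * c ∈ Subgroup.normalizer (V : Set X) := by
          rw [Subgroup.mem_normalizer_iff]
          intro v
          have h7 : ∀ w : X, q * w * q⁻¹ ∈ V ↔ c⁻¹ * w * c ∈ V := by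
            intro w
            have h8 : w ∈ conjS q⁻¹ V ↔ w ∈ conjS c V := by rw [h6']
            rw [mem_conjS, mem_conjS, inv_inv] at h8
            exact h8
          have h9 := h7 (c * v * c⁻¹)
          have h10 : c⁻¹ * (c * v * c⁻¹) * c = v := by group
          have h11 : q * (c * v * c⁻¹) * q⁻¹ = q * c * v * (q * c)⁻¹ := by group
          rw [h10, h11] at h9
          exact h9.symm
        refine ⟨⟨q * c, hn⟩, Subgroup.mem_top _, Subtype.ext ?_⟩
        change (t : X) = q * c * y * (q * c)⁻¹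
        have h9 := Subgroup.mem_centralizer_singleton_iff.1 hc
        rw [hq]
        calc q * (y : X) * q⁻¹ = q * (y * c) * c⁻¹ * q⁻¹ := by group
          _ = q * (c * y) * c⁻¹ * q⁻¹ := by rw [h9]
          _ = q * c * y * (q * c)⁻¹ := by group
      · rintro ⟨q, -, hq⟩
        exact ⟨q, Subgroup.mem_top _, congrArg Subtype.val hq⟩
    unfold clsum
    by_cases hc : ∃ q ∈ (⊤ : Subgroup X), (t : X) = q * y * q⁻¹
    · rw [if_pos hc, if_pos (hiff.1 hc)]
    · rw [if_neg hc, if_neg (fun h => hc (hiff.2 h))]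
  · rw [H66.br_of_not_mem ht]
    unfold clsum
    rw [if_neg]
    rintro ⟨q, -, hq⟩
    apply ht
    rw [hq]
    exact hconj q q.2

theorem clsum_conj {X : Type} [Group X] {F : Type} [Field F] (r y : X) :
    clsum F (⊤ : Subgroup X) (r⁻¹ * y * r) = clsum F (⊤ : Subgroup X) y := by
  funext t
  have hiff : (∃ q ∈ (⊤ : Subgroup X), t = q * (r⁻¹ * y * r) * q⁻¹) ↔
      ∃ q ∈ (⊤ : Subgroup X), t = q * y * q⁻¹ := by
    constructor
    · rintro ⟨q, -, hq⟩
      exact ⟨q * r⁻¹, Subgroup.mem_top _, by rw [hq]; group⟩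
    · rintro ⟨q, -, hq⟩
      exact ⟨q * r, Subgroup.mem_top _, by rw [hq]; group⟩
  unfold clsum
  by_cases hc : ∃ q ∈ (⊤ : Subgroup X), t = q * y * q⁻¹
  · rw [if_pos hc, if_pos (hiff.2 hc)]
  · rw [if_neg hc, if_neg (fun h => hc (hiff.1 h))]

/-- row FMG -/
theorem fmg : FmgStmt := by
  intro ℓ _ M _ hℓM X _ _ b hb V hTp
  have hℓ : ℓ.Prime := Fact.out
  have hF : GoodF ℓ (FF M) := H50.fld ℓ hℓ M hℓM
  obtain ⟨n, cV⟩ := (IsPGroup.iff_card (p := ℓ) (G := V)).1 hTp.pg
  have hbd : ∀ Q : Subgroup X, IsPGroup ℓ Q → Gd b Q → Nat.card Q ≤ ℓ ^ n := by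
    intro Q hQ hQ'
    rw [← cV]
    exact hTp.mx Q hQ hQ'
  obtain ⟨y, hy, u, hu, huy⟩ := H55.exists_y hb
  obtain ⟨r, hr⟩ := below hF hb.1.1 hu huy hTp.pg hTp.gd
  have pconj : ∀ (g : X) (Q : Subgroup X), IsPGroup ℓ Q → IsPGroup ℓ (conjS g Q) := by
    intro g Q hQ
    exact hQ.of_equiv (Q.equivMapOfInjective (MulAut.conj g).toMonoidHom (MulAut.conj g).injective)
  have hnd : ¬ ℓ ∣ (conjS r V).relIndex (Subgroup.centralizer ({y} : Set X)) :=
    not_dvd_rel hr (by rw [card_conj, cV]) (bd hbd hy)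
  refine ⟨?_, ?_, ?_⟩
  · intro Q hQ hQ'
    obtain ⟨s, hs⟩ := below hF hb.1.1 hu huy hQ hQ'
    obtain ⟨c, -, hc⟩ := conj_le hr hs (pconj r V hTp.pg) hnd (pconj s Q hQ)
    refine ⟨s⁻¹ * (c * r), fun x hx => ?_⟩
    have h1 : s * x * s⁻¹ ∈ conjS s Q := by
      rw [mem_conjS]
      have h2 : s⁻¹ * (s * x * s⁻¹) * s = x := by group
      rwa [h2]
    have h3 := hc h1
    rw [mem_conjS, mem_conjS] at h3
    rw [mem_conjS]
    have h4 : (s⁻¹ * (c * r))⁻¹ * x * (s⁻¹ * (c * r)) = r⁻¹ * (c⁻¹ * (s * x * s⁻¹) * c) * r := by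
      group
    rwa [h4]
  · have hVp := hTp.pg
    have hCN := cent_le_norm V
    have hVN : V ≤ Subgroup.normalizer (V : Set X) := Subgroup.le_normalizer
    have hB := H20.brm ℓ (FF M) hF X V (Subgroup.normalizer (V : Set X)) hVp hCN le_rfl
    set f : Subgroup.normalizer (V : Set X) → FF M := fun t => br V b t with hf
    have hfI : IsIdem f := hB.2.2 b hb.1
    obtain ⟨g₀, hg₀, hg₀'⟩ := hTp.gd
    have hf0 : f ≠ 0 := by
      intro h0
      apply hg₀'
      have h1 := congrFun h0 ⟨g₀, hCN hg₀⟩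
      change br V b g₀ = 0 at h1
      rwa [H66.br_of_mem hg₀] at h1
    have hVcard : Nat.card (V.subgroupOf (Subgroup.normalizer (V : Set X))) = ℓ ^ n := by
      rw [Nat.card_congr (Subgroup.subgroupOfEquivOfLe hVN).toEquiv, cV]
    have hfbd : ∀ Q : Subgroup (Subgroup.normalizer (V : Set X)), IsPGroup ℓ Q → Gd f Q →
        Nat.card Q ≤ ℓ ^ n := by
      intro Q hQ hQ'
      have h1 := hbd (Q.map (Subgroup.normalizer (V : Set X)).subtype)
        (hQ.of_equiv (Q.equivMapOfInjective _ (Subgroup.normalizer (V : Set X)).subtype_injective))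
        (gd_norm hQ')
      rwa [card_map] at h1
    refine ⟨⟨hfI, hf0, ?_⟩, ?_, ?_, ?_⟩
    · intro g hg
      by_contra hcon
      rw [not_or] at hcon
      obtain ⟨hc1, hc2⟩ := hcon
      set f₁ := mulF f g with hf₁
      have hf1I : IsIdem f₁ := H46.isIdem_mul hfI hg
      have hff1 : mulF f f₁ = f₁ := by
        apply ma_injective
        rw [hf₁, ma_mul, ma_mul, ← mul_assoc, H46.ma_idem hfI]
      have hf1f : mulF f₁ f = f₁ := by
        rw [H46.mulF_comm hf1I.1, hff1]
      have hf2I : IsIdem (f - f₁) := by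
        refine ⟨(cfs (FF M) _).sub_mem hfI.1 hf1I.1, ?_⟩
        apply ma_injective
        have e4 : ma (f - f₁) = ma f - ma f₁ :=
          map_sub (maL : (_ → FF M) ≃ₗ[FF M] MonoidAlgebra (FF M) _) f f₁
        rw [ma_mul, e4, sub_mul, mul_sub, mul_sub, H46.ma_idem hfI, H46.ma_idem hf1I,
          ← ma_mul, ← ma_mul, hff1, hf1f, sub_self, sub_zero]
      have hf2 : f - f₁ ≠ 0 := by
        intro h0
        exact hc1 (sub_eq_zero.1 h0).symm
      obtain ⟨ϑ₁, hϑ₁, h11⟩ := H50.exists_irr_res hf1I hc2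
      obtain ⟨ϑ₂, hϑ₂, h22⟩ := H50.exists_irr_res hf2I hf2
      have := Fintype.ofFinite (Subgroup.normalizer (V : Set X))
      have hr : ∀ ϑ ∈ Irr (Subgroup.normalizer (V : Set X)),
          res M f₁ ϑ = res M f ϑ * res M f₁ ϑ := by
        intro ϑ hϑ
        rw [← H50.res_mul hfI.1 hf1I.1 hϑ, hff1]
      have hf11 : res M f ϑ₁ = 1 := by
        have h3 := hr ϑ₁ hϑ₁
        rw [h11, mul_one] at h3
        exact h3.symm
      have h23 : res M f ϑ₂ - res M f₁ ϑ₂ = 1 := by rw [← H50.res_sub, h22]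
      have hf22 : res M f ϑ₂ = 1 := by
        rcases H50.res_idem hfI hϑ₂ with h3 | h3
        · exfalso
          have h4 := hr ϑ₂ hϑ₂
          rw [h3, zero_mul] at h4
          rw [h3, h4, sub_zero] at h23
          exact zero_ne_one h23
        · exact h3
      have h12 : res M f₁ ϑ₂ = 0 := by
        rw [hf22] at h23
        exact sub_eq_self.1 h23
      -- the central characters of `X`
      have hch : ∀ ϑ ∈ Irr (Subgroup.normalizer (V : Set X)), H50.IsChar (fun a : X → FF M =>
          res M (fun t : Subgroup.normalizer (V : Set X) => br V a t) ϑ) := by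
        intro ϑ hϑ
        refine ⟨?_, ?_, ?_⟩
        · intro a c _ _
          rw [← H50.res_sub]
          congr 1
          funext t
          by_cases ht : (t : X) ∈ Subgroup.centralizer (V : Set X)
          · rw [H66.br_of_mem ht, Pi.sub_apply, Pi.sub_apply, H66.br_of_mem ht, H66.br_of_mem ht]
          · rw [H66.br_of_not_mem ht, Pi.sub_apply, H66.br_of_not_mem ht, H66.br_of_not_mem ht,
              sub_zero]
        · intro c a _
          rw [← H50.res_smul]
          congr 1
          funext t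
          by_cases ht : (t : X) ∈ Subgroup.centralizer (V : Set X)
          · rw [H66.br_of_mem ht, Pi.smul_apply, Pi.smul_apply, H66.br_of_mem ht]
          · rw [H66.br_of_not_mem ht, Pi.smul_apply, H66.br_of_not_mem ht, smul_zero]
        · intro a c ha hc
          change res M (fun t : Subgroup.normalizer (V : Set X) => br V (mulF a c) t) ϑ = _
          rw [hB.1 a c ha hc, hB.2.1 a c]
          exact H50.res_mul (H50.br_cl le_rfl ha) (H50.br_cl le_rfl hc) hϑ
      have huniq : ∀ a : X → FF M, IsCl a →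
          res M (fun t : Subgroup.normalizer (V : Set X) => br V a t) ϑ₁ =
          res M (fun t : Subgroup.normalizer (V : Set X) => br V a t) ϑ₂ := fun a ha =>
        H50.char_uniq hb (hch ϑ₁ hϑ₁) (hch ϑ₂ hϑ₂) hf11 hf22 ha
      -- the support of `f₁`
      have hn : (V.subgroupOf (Subgroup.normalizer (V : Set X))).Normal :=
        Subgroup.normal_in_normalizer
      have hbf := H55.br_idem hF hn hVp.comap_subtype hf1I
      have hf18 : ∀ z, f₁ z ≠ 0 → ¬ ℓ ^ (n + 1) ∣
          Nat.card (Subgroup.centralizer ({z} : Set (Subgroup.normalizer (V : Set X)))) :=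
        fun z hz => bd (fun Q hQ hQ' => hfbd Q hQ (gd_factor hF hfI.1 hf1I.1 hff1 hQ hQ')) hz
      have hlab : ∀ z, f₁ z ≠ 0 → labF M ϑ₁ z = labF M ϑ₂ z := by
        intro z hz
        have hzV : (z : X) ∈ Subgroup.centralizer (V : Set X) := by
          have h3 : z ∈ Subgroup.centralizer
              ((V.subgroupOf (Subgroup.normalizer (V : Set X)) :
                Subgroup (Subgroup.normalizer (V : Set X))) : Set _) := by
            by_contra h4
            apply hz
            rw [← hbf, H66.br_of_not_mem h4]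
          rw [Subgroup.mem_centralizer_iff] at h3 ⊢
          intro v hv
          exact congrArg Subtype.val (h3 ⟨v, hVN hv⟩ hv)
        have hV1 : V ≤ Subgroup.centralizer ({(z : X)} : Set X) := by
          intro v hv
          rw [Subgroup.mem_centralizer_singleton_iff]
          exact Subgroup.mem_centralizer_iff.1 hzV v hv
        have h8 : ¬ ℓ ^ (n + 1) ∣ Nat.card (Subgroup.centralizer ({(z : X)} : Set X)) :=
          fun h => hf18 z hz (pow_of_norm cV hV1 h)
        have h5 := huniq _ (H50.isCl_clsum (F := FF M) (z : X))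
        rw [br_clsum hVp hzV (not_dvd_rel hV1 cV h8)] at h5
        rwa [H50.res_clsum, H50.res_clsum] at h5
      have := Fintype.ofFinite (ConjClasses (Subgroup.normalizer (V : Set X)))
      have heq : res M f₁ ϑ₁ = res M f₁ ϑ₂ := by
        rw [H50.res_eq_lab, H50.res_eq_lab, finsum_eq_sum_of_fintype, finsum_eq_sum_of_fintype]
        refine Finset.sum_congr rfl fun c _ => ?_
        by_cases hc : f₁ (Quotient.out c) = 0
        · rw [hc, zero_mul, zero_mul]
        · rw [hlab _ hc]
      rw [h11, h12] at heq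
      exact one_ne_zero heq
    · exact hVp.comap_subtype
    · refine ⟨⟨g₀, hCN hg₀⟩, ?_, ?_⟩
      · rw [Subgroup.mem_centralizer_iff]
        intro v hv
        exact Subtype.ext (Subgroup.mem_centralizer_iff.1 hg₀ _ hv)
      · change br V b g₀ ≠ 0
        rw [H66.br_of_mem hg₀]
        exact hg₀'
    · intro Q hQ hQ'
      rw [hVcard]
      exact hfbd Q hQ hQ'
  · have hV1 : V ≤ Subgroup.centralizer ({r⁻¹ * y * r} : Set X) := by
      intro v hv
      have h1 : r * v * r⁻¹ ∈ conjS r V := by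
        rw [mem_conjS]
        have h2 : r⁻¹ * (r * v * r⁻¹) * r = v := by group
        rwa [h2]
      have h3 := Subgroup.mem_centralizer_singleton_iff.1 (hr h1)
      rw [Subgroup.mem_centralizer_singleton_iff]
      calc v * (r⁻¹ * y * r) = r⁻¹ * (r * v * r⁻¹ * y) * r := by group
        _ = r⁻¹ * (y * (r * v * r⁻¹)) * r := by rw [h3]
        _ = r⁻¹ * y * r * v := by group
    have hby : b (r⁻¹ * y * r) ≠ 0 := by
      have h1 := hb.1.1 y r⁻¹
      rw [inv_inv] at h1
      rw [h1]
      exact hy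
    refine ⟨r⁻¹ * y * r, ?_, hby, not_dvd_rel hV1 cV (bd hbd hby), u, hu, ?_⟩
    · rw [Subgroup.mem_centralizer_iff]
      intro v hv
      exact Subgroup.mem_centralizer_singleton_iff.1 (hV1 hv)
    · rw [clsum_conj]
      exact huy

end main

end Pool.Agent.PP.K9.H69
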