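import Pool.Agent.Helper57_K9.Stmts
import Pool.Agent.Helper24_D2.Psb
import Pool.Agent.Helper69_K9.Fmg

/-!
# Squad K9, row KAP
-/

open scoped BigOperators Pointwise

noncomputable section

namespace Pool.Agent.PP.K9.H69

open Pool.Agent.Helper51_AWC Pool.Agent.Helper79_WRA Pool.Agent.PP Pool.Agent.PP.KF

attribute [local instance] Ideal.Quotient.field

/-- row KAP -/
theorem kap (dzo : DzoStmt) (pug : PugStmt) : KapStmt := by
  intro ℓ _ M _ hℓM G H _ _ _ _ e he v hTp π hQt γ hγ heγ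
  have hℓ : ℓ.Prime := Fact.out
  have hF : GoodF ℓ (FF M) := H50.fld ℓ hℓ M hℓM
  have hv : v ∈ Cu v := by
    rw [Cu, Subgroup.mem_centralizer_singleton_iff]
  have hcen : (⟨v, hv⟩ : Cu v) ∈ Subgroup.center (Cu v) := by
    rw [Subgroup.mem_center_iff]
    intro c
    apply Subtype.ext
    exact Subgroup.mem_centralizer_singleton_iff.1 c.2
  have hord : orderOf (⟨v, hv⟩ : Cu v) = ℓ := by
    rw [← hQt.ord]
    exact (Subgroup.orderOf_coe (⟨v, hv⟩ : Cu v)).symm
  have hker : π.ker = Subgroup.zpowers (⟨v, hv⟩ : Cu v) := by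
    ext c
    rw [MonoidHom.mem_ker, hQt.ker, Subgroup.mem_zpowers_iff, Subgroup.mem_zpowers_iff]
    constructor
    · rintro ⟨k, hk⟩
      exact ⟨k, Subtype.ext hk⟩
    · rintro ⟨k, hk⟩
      exact ⟨k, congrArg Subtype.val hk⟩
  have hkc : Nat.card π.ker = ℓ := by
    rw [hker, Nat.card_zpowers, hord]
  have hkp : IsPGroup ℓ π.ker := IsPGroup.of_card (n := 1) (by rw [hkc, pow_one])
  have hblk : IsBlk (H75.push π γ) :=
    CD2.H24.psb ℓ (FF M) hF (Cu v) H π hQt.sur ⟨v, hv⟩ hord hcen hker γ hγ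
  refine dzo ℓ M hℓM H (H75.push π γ) hblk ?_
  intro Q hQ hgQ
  by_contra hne
  have hQ' : IsPGroup ℓ (Q.comap π) := hQ.comap_of_ker_isPGroup π hkp
  have hle : π.ker ≤ Q.comap π := by
    intro c hc
    rw [Subgroup.mem_comap, MonoidHom.mem_ker.1 hc]
    exact one_mem Q
  have h1 : Gd γ (Q.comap π) := by
    rw [pug ℓ (FF M) hF (Cu v) H π hQt.sur hkp γ hγ.1 (Q.comap π) hle hQ',
      Subgroup.map_comap_eq_self_of_surjective hQt.sur]
    exact hgQ
  have hecl : IsCl (fun t : Cu v => e t) := fun x y => he.1.1 x y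
  have h2 : Gd (fun t : Cu v => e t) (Q.comap π) := gd_factor hF hecl hγ.1.1 heγ hQ' h1
  have h3 : Gd e ((Q.comap π).map (Cu v).subtype) := by
    obtain ⟨z, hz, hz0⟩ := h2
    refine ⟨z, ?_, hz0⟩
    rw [Subgroup.mem_centralizer_iff]
    rintro _ ⟨q, hq, rfl⟩
    exact congrArg Subtype.val (Subgroup.mem_centralizer_iff.1 hz q hq)
  have h4 := hTp.mx _ (hQ'.of_equiv
    ((Q.comap π).equivMapOfInjective _ (Cu v).subtype_injective)) h3
  rw [card_map, Nat.card_zpowers, hQt.ord] at h4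
  have h5 : π.ker = Q.comap π := Subgroup.eq_of_le_of_card_ge hle (by rw [hkc]; exact h4)
  apply hne
  rw [Subgroup.eq_bot_iff_forall]
  intro q hq
  obtain ⟨c, rfl⟩ := hQt.sur q
  have h6 : c ∈ Q.comap π := hq
  rw [← h5] at h6
  exact h6

end Pool.Agent.PP.K9.H69
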